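import Pool.Agent.H24.EH.Defs
import Pool.Agent.H9.EH.Step1

/-!
# EHP: the layer defect in the form of `H24.EH.Defs`, from step 1
-/

set_option autoImplicit false

open MeasureTheory Set Filter Topology
open scoped Real

noncomputable section

namespace Pool.Agent.H45.EH

open Pool.Agent.H24.EH
open Pool.Agent.H9.EH (Sx Sv DD step1 xz)

theorem ex_eq (l φ : ℝ) : ex (l, φ) = circleMap 0 (Real.exp l) φ := by
  simp [ex, circleMap, Complex.exp_add]

theorem J_yV_eq (l t : ℝ) : J yV l t = Sv (Real.exp l) t := by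
  unfold J Sv yV gV Pool.Agent.H21.EH.gv
  simp only [ex_eq]

theorem max_gQ {n : ℕ} (a : Fin n → ℂ) {z : ℂ} (hz : ∀ j, z ≠ a j) {t : ℝ}
    (ht : 0 ≤ t) : max (gQ a z - t) 0 = max (xz a z - t) 0 := by
  have h1 : Real.log ‖∏ j, (z - a j)‖ = ∑ j, Real.log ‖z - a j‖ := by
    rw [norm_prod, Real.log_prod]
    intro j _
    exact norm_ne_zero_iff.2 (sub_ne_zero.2 (hz j))
  have h2 : gQ a z = max 0 (xz a z) := by
    unfold gQ xz Real.posLog
    rw [h1, mul_max_of_nonneg _ _ (by positivity), mul_zero]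
  rw [h2]
  rcases le_total 0 (xz a z) with h | h
  · rw [max_eq_right h]
  · rw [max_eq_left h, max_eq_right (by linarith), max_eq_right (by linarith)]

theorem J_yQ_eq {n : ℕ} (a : Fin n → ℂ) (l t : ℝ) (ht : 0 ≤ t) :
    J (yQ a) l t = Sx a (Real.exp l) t := by
  unfold J Sx yQ
  refine intervalIntegral.integral_congr_ae ?_
  have hr : Real.exp l ≠ 0 := (Real.exp_pos l).ne'
  have hc : (circleMap 0 (Real.exp l) ⁻¹' (Set.range a)).Countable :=
    Set.Countable.preimage_circleMap (Set.finite_range a).countable 0 hr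
  have h0 : ∀ᵐ φ : ℝ, φ ∉ (circleMap 0 (Real.exp l) ⁻¹' (Set.range a)) :=
    compl_mem_ae_iff.2 (hc.measure_zero _)
  filter_upwards [h0] with φ hφ _
  simp only [ex_eq]
  refine max_gQ a (fun j hj => hφ ?_) ht
  exact ⟨j, hj.symm⟩

theorem Dd_eq {n : ℕ} (a : Fin n → ℂ) (l t : ℝ) (ht : 0 ≤ t) :
    Dd a l t = DD a (Real.exp l) t := by
  unfold Dd DD
  rw [J_yV_eq, J_yQ_eq a l t ht]

/-- (D1) step 1 -/
theorem Dd_nonneg {n : ℕ} {a : Fin n → ℂ} {p : ℝ} (h : Touch a p) (l t : ℝ) (ht : 0 ≤ t) :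
    0 ≤ Dd a l t := by
  unfold Dd
  rw [J_yV_eq, J_yQ_eq a l t ht, sub_nonneg]
  exact step1 h.hn a h.le (Real.exp_pos l) t

end Pool.Agent.H45.EH
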